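import Pool.Agent.Work.MP_ef7f46_tn.Interface

/-!
CE2: few sequences with many exceptional positions (second test, with foresight).
-/

set_option autoImplicit false
open Classical Finset

noncomputable section

namespace TN

namespace CE2

variable {Q Λ : Type} [Fintype Q] [Fintype Λ] (X : Ctx Q Λ)

theorem w3_congr (h3 : Stmt_ADP) {z z' : Pos X → Q} {I J : Finset (Pos X)} {i : ℕ}
    (h : ∀ p : Pos X, (p ∈ J ∨ p.1.val < i) → z p = z' p) : w3 X z I J i = w3 X z' I J i := by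
  have h1 : st X z I i = st X z' I i := h3 Q Λ X z z' I i fun p hp => h p (Or.inr hp)
  have h2 : vJ X z J = vJ X z' J := by
    funext ℓ
    unfold vJ
    have h4 : (∃ p ∈ J, z p ∈ X.inc ℓ) ↔ ∃ p ∈ J, z' p ∈ X.inc ℓ := by
      constructor
      · rintro ⟨p, hp, hz⟩
        exact ⟨p, hp, h p (Or.inl hp) ▸ hz⟩
      · rintro ⟨p, hp, hz⟩
        exact ⟨p, hp, (h p (Or.inl hp)).symm ▸ hz⟩
    simp only [h4]
  funext ℓ
  unfold w3
  rw [h1, h2]

theorem count (h1 : Stmt_CHE) (h2 : Stmt_STB) (h3 : Stmt_ADP) (h4 : Stmt_CNT) (hX : Reg X)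
    (ht : (X.tau / X.eta) ^ 2 ≤ X.del / 2) (I J R : Finset (Pos X)) (hR : R ⊆ I \ J) :
    ((univ.filter (fun z : Pos X → Q => ∀ p ∈ R, z p ∈ Exc X (w3 X z I J p.1))).card : ℝ) ≤
      X.del ^ R.card * (Fintype.card Q : ℝ) ^ (Fintype.card (Pos X)) := by
  have hq : qq X = Fintype.card Q := by
    unfold qq
    rw [hX.lin.cardQ]
    push_cast
    ring
  have h5 := h4 Q (Pos X) (fun p => p.1.val) J R (fun p z => Exc X (w3 X z I J p.1)) X.del
    hX.delpos.le (disjoint_of_subset_left hR sdiff_disjoint) ?_ ?_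
  · refine le_trans (le_of_eq (congrArg (fun s : Finset (Pos X → Q) => (s.card : ℝ)) ?_)) h5
    ext z
    simp only [mem_filter, mem_univ, true_and]
  · intro p _ z z' hz
    rw [w3_congr X h3 (z := z) (z' := z') (I := I) (J := J) (i := p.1) fun p' hp' => hz p' hp']
  · intro p _ z
    have h5 := (h1 Q Λ X hX (w3 X z I J p.1) ((h2 Q Λ X hX).2.2.2 z I J p.1)).2.2
    rw [hq] at h5
    refine h5.trans (mul_le_mul_of_nonneg_right ?_ (Nat.cast_nonneg _))
    have := hX.delpos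
    linarith

end CE2

/-- CE2 -/
theorem ce2_ok (h1 : Stmt_CHE) (h2 : Stmt_STB) (h3 : Stmt_ADP) (h4 : Stmt_CNT) : Stmt_CE2 := by
  intro Q Λ _ _ X hX ht
  have hq : qq X = Fintype.card Q := by
    unfold qq
    rw [hX.lin.cardQ]
    push_cast
    ring
  have hP : Fintype.card (Pos X) = X.lam * X.M := by
    rw [Fintype.card_prod, Fintype.card_fin, Fintype.card_fin, hX.mb]
  set T : Finset ((Finset (Pos X) × Finset (Pos X)) × Finset (Pos X)) :=
    univ.filter (fun t => t.2 ⊆ t.1.1 \ t.1.2 ∧ (X.M : ℝ) / 100 < (t.2.card : ℝ)) with hT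
  have hsub : univ.filter (fun z : Pos X → Q => ∃ I J : Finset (Pos X),
      (X.M : ℝ) / 100 < ((bad2 X z I J).card : ℝ)) ⊆
      T.biUnion fun t => univ.filter (fun z : Pos X → Q =>
        ∀ p ∈ t.2, z p ∈ Exc X (w3 X z t.1.1 t.1.2 p.1)) := by
    intro z hz
    rw [mem_filter] at hz
    obtain ⟨_, I, J, hIJ⟩ := hz
    rw [mem_biUnion]
    refine ⟨((I, J), bad2 X z I J), ?_, ?_⟩
    · rw [hT, mem_filter]
      exact ⟨mem_univ _, filter_subset _ _, hIJ⟩
    · rw [mem_filter]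
      refine ⟨mem_univ _, fun p hp => ?_⟩
      exact (mem_filter.1 hp).2
  have hone : ∀ t ∈ T, ((univ.filter (fun z : Pos X → Q =>
      ∀ p ∈ t.2, z p ∈ Exc X (w3 X z t.1.1 t.1.2 p.1))).card : ℝ) ≤
      X.del ^ ((X.M : ℝ) / 100) * qq X ^ (X.lam * X.M) := by
    intro t htT
    rw [hT, mem_filter] at htT
    have h5 := CE2.count X h1 h2 h3 h4 hX ht t.1.1 t.1.2 t.2 htT.2.1
    rw [hP, ← hq] at h5
    refine h5.trans (mul_le_mul_of_nonneg_right ?_ ?_)
    · rw [← Real.rpow_natCast]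
      exact Real.rpow_le_rpow_of_exponent_ge hX.delpos hX.delle htT.2.2.le
    · rw [hq]
      positivity
  have hTc : (T.card : ℝ) ≤ (8 : ℝ) ^ (X.lam * X.M) := by
    have h5 : T.card ≤ 8 ^ (X.lam * X.M) := by
      refine (card_le_univ T).trans ?_
      rw [Fintype.card_prod, Fintype.card_prod, Fintype.card_finset, hP]
      apply le_of_eq
      rw [← mul_pow, ← mul_pow]
      norm_num
    exact_mod_cast h5
  have h0 : 0 ≤ X.del ^ ((X.M : ℝ) / 100) * qq X ^ (X.lam * X.M) := by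
    refine mul_nonneg (Real.rpow_nonneg hX.delpos.le _) ?_
    rw [hq]
    positivity
  calc ((univ.filter (fun z : Pos X → Q => ∃ I J : Finset (Pos X),
      (X.M : ℝ) / 100 < ((bad2 X z I J).card : ℝ))).card : ℝ)
      ≤ ((T.biUnion fun t => univ.filter (fun z : Pos X → Q =>
        ∀ p ∈ t.2, z p ∈ Exc X (w3 X z t.1.1 t.1.2 p.1))).card : ℝ) := by
        exact_mod_cast card_le_card hsub
    _ ≤ ∑ t ∈ T, ((univ.filter (fun z : Pos X → Q =>
        ∀ p ∈ t.2, z p ∈ Exc X (w3 X z t.1.1 t.1.2 p.1))).card : ℝ) := by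
        exact_mod_cast card_biUnion_le
    _ ≤ ∑ _t ∈ T, X.del ^ ((X.M : ℝ) / 100) * qq X ^ (X.lam * X.M) := sum_le_sum hone
    _ = T.card * (X.del ^ ((X.M : ℝ) / 100) * qq X ^ (X.lam * X.M)) := by
        rw [sum_const, nsmul_eq_mul]
    _ ≤ (8 : ℝ) ^ (X.lam * X.M) * (X.del ^ ((X.M : ℝ) / 100) * qq X ^ (X.lam * X.M)) :=
        mul_le_mul_of_nonneg_right hTc h0
    _ = (8 : ℝ) ^ (X.lam * X.M) * X.del ^ ((X.M : ℝ) / 100) * qq X ^ (X.lam * X.M) := by
        ring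

end TN
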