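import Pool.Agent.Work.MP_ef7f46_tn.Interface

/-!
CNT: sequential counting lemma.
-/

set_option autoImplicit false
open Classical Finset

noncomputable section

namespace TN

namespace CNT

variable {Q P : Type} [Fintype Q]

/-- the double counting for one position -/
theorem one (p₀ : P) (A : Finset (P → Q)) (E : (P → Q) → Finset Q)
    (hA : ∀ z ∈ A, ∀ y, Function.update z p₀ y ∈ A)
    (hE : ∀ z y, E (Function.update z p₀ y) = E z) (δ : ℝ)
    (hδ : ∀ z, ((E z).card : ℝ) ≤ δ * Fintype.card Q) :
    ((A.filter (fun z => z p₀ ∈ E z)).card : ℝ) ≤ δ * A.card := by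
  have h1 : (A.sigma fun z => E z).card =
      (A.filter (fun z => z p₀ ∈ E z) ×ˢ (univ : Finset Q)).card := by
    refine card_nbij' (fun a => (Function.update a.1 p₀ a.2, a.1 p₀))
      (fun b => ⟨Function.update b.1 p₀ b.2, b.1 p₀⟩) ?_ ?_ ?_ ?_
    · rintro ⟨z, y⟩ ha
      rw [mem_coe, mem_sigma] at ha
      simp only [coe_product, Set.mem_prod, mem_coe, mem_filter, coe_univ, Set.mem_univ,
        and_true]
      exact ⟨hA z ha.1 y, by rw [Function.update_self, hE]; exact ha.2⟩
    · rintro ⟨z, y⟩ hb
      simp only [coe_product, Set.mem_prod, mem_coe, mem_filter, coe_univ, Set.mem_univ,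
        and_true] at hb
      rw [mem_coe, mem_sigma]
      exact ⟨hA z hb.1 y, by simp only; rw [hE]; exact hb.2⟩
    · rintro ⟨z, y⟩ _
      simp
    · rintro ⟨z, y⟩ _
      simp
  rw [card_sigma, card_product, card_univ] at h1
  have h2 : ((A.filter (fun z => z p₀ ∈ E z)).card : ℝ) * Fintype.card Q ≤
      δ * A.card * Fintype.card Q := by
    have h3 : ((A.filter (fun z => z p₀ ∈ E z)).card : ℝ) * Fintype.card Q =
        ∑ z ∈ A, ((E z).card : ℝ) := by exact_mod_cast h1.symm
    rw [h3]
    refine (sum_le_sum fun z _ => hδ z).trans ?_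
    rw [sum_const, nsmul_eq_mul]
    apply le_of_eq
    ring
  rcases Nat.eq_zero_or_pos (Fintype.card Q) with h0 | h0
  · have hempty : IsEmpty (P → Q) := by
      rw [Fintype.card_eq_zero_iff] at h0
      exact ⟨fun z => h0.false (z p₀)⟩
    have hA0 : A = ∅ := by
      apply eq_empty_of_forall_notMem
      intro z
      exact (hempty.false z).elim
    rw [hA0]
    simp
  · exact le_of_mul_le_mul_right h2 (by exact_mod_cast h0)

end CNT

/-- CNT -/
theorem cnt_ok : Stmt_CNT := by
  intro Q P _ _ ρ J R E δ hδ0
  induction' hn : R.card with n ih generalizing R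
  · intro _ _ _
    rw [card_eq_zero] at hn
    rw [hn]
    simp
  · intro hd hdep hcard
    have hR : R.Nonempty := card_pos.1 (by omega)
    obtain ⟨p₀, hp₀, hmax⟩ := exists_max_image R ρ hR
    have hp₀J : p₀ ∉ J := disjoint_left.1 hd hp₀
    have h1 := ih (R.erase p₀) (by rw [card_erase_of_mem hp₀, hn]; rfl)
      (disjoint_of_subset_left (erase_subset _ _) hd)
      (fun p hp => hdep p (mem_of_mem_erase hp)) (fun p hp => hcard p (mem_of_mem_erase hp))
    have hupd : ∀ p ∈ R, ∀ (z : P → Q) (y : Q), E p (Function.update z p₀ y) = E p z := by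
      intro p hp z y
      refine hdep p hp _ _ fun p' hp' => ?_
      have hne : p' ≠ p₀ := by
        rintro rfl
        rcases hp' with h2 | h2
        · exact hp₀J h2
        · exact absurd (hmax p hp) (by omega)
      rw [Function.update_of_ne hne]
    have h2 := CNT.one p₀ (univ.filter (fun z : P → Q => ∀ p ∈ R.erase p₀, z p ∈ E p z))
      (fun z => E p₀ z) ?_ (fun z y => hupd p₀ hp₀ z y) δ (fun z => hcard p₀ hp₀ z)
    · have h3 : univ.filter (fun z : P → Q => ∀ p ∈ R, z p ∈ E p z) =
          (univ.filter (fun z : P → Q => ∀ p ∈ R.erase p₀, z p ∈ E p z)).filter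
            (fun z => z p₀ ∈ E p₀ z) := by
        ext z
        simp only [mem_filter, mem_univ, true_and]
        constructor
        · intro h
          exact ⟨fun p hp => h p (mem_of_mem_erase hp), h p₀ hp₀⟩
        · rintro ⟨h, h'⟩ p hp
          by_cases hpp : p = p₀
          · rw [hpp]
            exact h'
          · exact h p (mem_erase.2 ⟨hpp, hp⟩)
      rw [h3]
      refine h2.trans ((mul_le_mul_of_nonneg_left h1 hδ0).trans (le_of_eq ?_))
      rw [pow_succ]
      ring
    · intro z hz y
      simp only [mem_filter, mem_univ, true_and] at hz ⊢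
      intro p hp
      rw [hupd p (mem_of_mem_erase hp), Function.update_of_ne (ne_of_mem_erase hp)]
      exact hz p hp

end TN
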